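import Mathlib

/-!
# Sets containing scaled Cantor sets: common definitions
-/

namespace Pool.Agent.Lib.CantorC

open Real

/-- The middle third Cantor set translated so that it is symmetric about `0`. -/
def K : Set ℝ := {x : ℝ | x + 1 / 2 ∈ cantorSet}

/-- The dimension `log 2 / log 3` of the Cantor set. -/
noncomputable def kap : ℝ := Real.log 2 / Real.log 3

/-- Block digits: `Blk m` indexes the `2 ^ m` sequences of `m` signs. -/
def Blk : ℕ → Type
  | 0 => Unit
  | m + 1 => Bool × Blk m

instance instFintypeBlk : (m : ℕ) → Fintype (Blk m)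
  | 0 => inferInstanceAs (Fintype Unit)
  | m + 1 => @instFintypeProd Bool (Blk m) _ (instFintypeBlk m)

instance instDecEqBlk : (m : ℕ) → DecidableEq (Blk m)
  | 0 => inferInstanceAs (DecidableEq Unit)
  | m + 1 => @instDecidableEqProd Bool (Blk m) _ (instDecEqBlk m)

/-- sign of a Boolean -/
def sgn (b : Bool) : ℤ := if b then 1 else -1

/-- value of a block: units digit first -/
def bval : (m : ℕ) → Blk m → ℤ
  | 0, _ => 0
  | m + 1, (b, e) => sgn b + 3 * bval m e

lemma card_Blk (m : ℕ) : Fintype.card (Blk m) = 2 ^ m := by
  induction m with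
  | zero => rfl
  | succ m ih =>
    have : Fintype.card (Blk (m + 1)) = Fintype.card Bool * Fintype.card (Blk m) :=
      Fintype.card_prod Bool (Blk m)
    rw [this, ih, Fintype.card_bool]
    ring

end Pool.Agent.Lib.CantorC
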