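import Mathlib

/-!
# Unnormalised entropy of functions on a finite weighted set
-/

namespace Pool.Agent.Lib.CantorC

open Finset Real

open scoped Classical in
/-- mass of a fibre -/
noncomputable def mass {Ω β : Type*} [Fintype Ω] (w : Ω → ℝ) (f : Ω → β) (b : β) : ℝ :=
  ∑ ω, if f ω = b then w ω else 0

/-- unnormalised entropy of `f` with respect to the weight `w` -/
noncomputable def ent {Ω β : Type*} [Fintype Ω] (w : Ω → ℝ) (f : Ω → β) : ℝ :=
  ∑ ω, w ω * (log (∑ ω', w ω') - log (mass w f (f ω)))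

open scoped Classical in
/-- restriction of a weight to a fibre -/
noncomputable def rw' {Ω γ : Type*} (w : Ω → ℝ) (g : Ω → γ) (c : γ) : Ω → ℝ :=
  fun ω => if g ω = c then w ω else 0

section

variable {Ω β γ : Type*} [Fintype Ω]

lemma mass_nonneg {w : Ω → ℝ} (hw : ∀ ω, 0 ≤ w ω) (f : Ω → β) (b : β) : 0 ≤ mass w f b := by
  unfold mass
  refine Finset.sum_nonneg fun ω _ => ?_
  split_ifs
  · exact hw ω
  · exact le_rfl

lemma le_mass {w : Ω → ℝ} (hw : ∀ ω, 0 ≤ w ω) (f : Ω → β) (ω : Ω) : w ω ≤ mass w f (f ω) := by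
  classical
  unfold mass
  have h := Finset.single_le_sum (f := fun ω' => if f ω' = f ω then w ω' else 0)
    (fun ω' _ => by
      split_ifs
      · exact hw ω'
      · exact le_rfl) (Finset.mem_univ ω)
  simpa using h

lemma mass_le_total {w : Ω → ℝ} (hw : ∀ ω, 0 ≤ w ω) (f : Ω → β) (b : β) :
    mass w f b ≤ ∑ ω, w ω := by
  classical
  unfold mass
  refine Finset.sum_le_sum fun ω _ => ?_
  split_ifs
  · exact le_rfl
  · exact hw ω

lemma mass_pos {w : Ω → ℝ} (hw : ∀ ω, 0 ≤ w ω) (f : Ω → β) {ω : Ω} (h : w ω ≠ 0) :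
    0 < mass w f (f ω) := lt_of_lt_of_le (lt_of_le_of_ne (hw ω) (Ne.symm h)) (le_mass hw f ω)

lemma total_pos {w : Ω → ℝ} (hw : ∀ ω, 0 ≤ w ω) {ω : Ω} (h : w ω ≠ 0) : 0 < ∑ ω, w ω :=
  lt_of_lt_of_le (lt_of_le_of_ne (hw ω) (Ne.symm h))
    (Finset.single_le_sum (fun ω _ => hw ω) (Finset.mem_univ ω))

lemma ent_nonneg {w : Ω → ℝ} (hw : ∀ ω, 0 ≤ w ω) (f : Ω → β) : 0 ≤ ent w f := by
  unfold ent
  refine Finset.sum_nonneg fun ω _ => ?_
  by_cases h : w ω = 0
  · rw [h, zero_mul]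
  · apply mul_nonneg (hw ω)
    rw [sub_nonneg]
    exact Real.log_le_log (mass_pos hw f h) (mass_le_total hw f _)

lemma rw'_nonneg {w : Ω → ℝ} (hw : ∀ ω, 0 ≤ w ω) (g : Ω → γ) (c : γ) (ω : Ω) :
    0 ≤ rw' w g c ω := by
  unfold rw'
  split_ifs
  · exact hw ω
  · exact le_rfl

lemma sum_rw' (w : Ω → ℝ) (g : Ω → γ) (c : γ) : ∑ ω, rw' w g c ω = mass w g c := rfl

lemma sum_sum_rw' [Fintype γ] (w : Ω → ℝ) (g : Ω → γ) (h : Ω → ℝ) :
    ∑ c, ∑ ω, rw' w g c ω * h ω = ∑ ω, w ω * h ω := by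
  classical
  rw [Finset.sum_comm]
  refine Finset.sum_congr rfl fun ω _ => ?_
  rw [← Finset.sum_mul]
  congr 1
  unfold rw'
  simp

lemma sum_mass [Fintype γ] (w : Ω → ℝ) (g : Ω → γ) : ∑ c, mass w g c = ∑ ω, w ω := by
  have h := sum_sum_rw' w g (fun _ => 1)
  simp only [mul_one] at h
  exact h

/-- chain rule -/
lemma ent_chain [Fintype γ] {w : Ω → ℝ} (hw : ∀ ω, 0 ≤ w ω) {f : Ω → β} {g : Ω → γ}
    (hfg : ∀ ω ω', f ω = f ω' → g ω = g ω') :
    ent w f = ent w g + ∑ c, ent (rw' w g c) f := by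
  classical
  have h1 : ∀ c, ent (rw' w g c) f =
      ∑ ω, rw' w g c ω * (log (mass w g (g ω)) - log (mass w f (f ω))) := by
    intro c
    unfold ent
    refine Finset.sum_congr rfl fun ω _ => ?_
    by_cases hc : g ω = c
    · congr 1
      rw [sum_rw', hc]
      congr 2
      unfold mass
      refine Finset.sum_congr rfl fun ω' _ => ?_
      by_cases h2 : f ω' = f ω
      · rw [if_pos h2, if_pos h2]
        unfold rw'
        rw [if_pos ((hfg _ _ h2).trans hc)]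
      · rw [if_neg h2, if_neg h2]
    · have : rw' w g c ω = 0 := by
        unfold rw'
        rw [if_neg hc]
      rw [this]
      simp
  simp only [h1]
  rw [sum_sum_rw' w g (fun ω => log (mass w g (g ω)) - log (mass w f (f ω)))]
  unfold ent
  rw [← Finset.sum_add_distrib]
  refine Finset.sum_congr rfl fun ω _ => ?_
  ring

lemma ent_mono [Fintype γ] {w : Ω → ℝ} (hw : ∀ ω, 0 ≤ w ω) {f : Ω → β} {g : Ω → γ}
    (hfg : ∀ ω ω', f ω = f ω' → g ω = g ω') : ent w g ≤ ent w f := by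
  rw [ent_chain hw hfg]
  have : 0 ≤ ∑ c, ent (rw' w g c) f :=
    Finset.sum_nonneg fun c _ => ent_nonneg (rw'_nonneg hw g c) f
  linarith

end

end Pool.Agent.Lib.CantorC
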