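import Mathlib
import Pool.Agent.Lib.CantorC.Ent

/-!
# More facts about the unnormalised entropy
-/

namespace Pool.Agent.Lib.CantorC

open Finset Real

section

variable {Ω β γ δ : Type*} [Fintype Ω]

lemma mass_le_mass {w : Ω → ℝ} (hw : ∀ ω, 0 ≤ w ω) {f : Ω → β} {g : Ω → γ} {ω : Ω}
    (hfg : ∀ ω', w ω' ≠ 0 → f ω' = f ω → g ω' = g ω) : mass w f (f ω) ≤ mass w g (g ω) := by
  classical
  unfold mass
  refine Finset.sum_le_sum fun ω' _ => ?_
  by_cases h0 : w ω' = 0
  · simp [h0]
  · by_cases h : f ω' = f ω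
    · rw [if_pos h, if_pos (hfg ω' h0 h)]
    · rw [if_neg h]
      split_ifs
      · exact hw ω'
      · exact le_rfl

/-- monotonicity, only using the support -/
lemma ent_mono' {w : Ω → ℝ} (hw : ∀ ω, 0 ≤ w ω) {f : Ω → β} {g : Ω → γ}
    (hfg : ∀ ω ω', w ω ≠ 0 → w ω' ≠ 0 → f ω = f ω' → g ω = g ω') : ent w g ≤ ent w f := by
  unfold ent
  refine Finset.sum_le_sum fun ω _ => ?_
  by_cases h0 : w ω = 0
  · simp [h0]
  · refine mul_le_mul_of_nonneg_left ?_ (hw ω)
    have h1 := Real.log_le_log (mass_pos hw f h0)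
      (mass_le_mass hw (g := g) (fun ω' h' h => hfg ω' ω h' h0 h))
    linarith

lemma ent_congr' {w : Ω → ℝ} (hw : ∀ ω, 0 ≤ w ω) {f : Ω → β} {g : Ω → γ}
    (hfg : ∀ ω ω', w ω ≠ 0 → w ω' ≠ 0 → (f ω = f ω' ↔ g ω = g ω')) : ent w g = ent w f :=
  le_antisymm (ent_mono' hw fun ω ω' h h' => (hfg ω ω' h h').1)
    (ent_mono' hw fun ω ω' h h' => (hfg ω ω' h h').2)

lemma ent_const {w : Ω → ℝ} {f : Ω → β} (hf : ∀ ω ω', f ω = f ω') : ent w f = 0 := by
  classical
  unfold ent
  refine Finset.sum_eq_zero fun ω _ => ?_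
  have : mass w f (f ω) = ∑ ω', w ω' := by
    unfold mass
    refine Finset.sum_congr rfl fun ω' _ => ?_
    rw [if_pos (hf ω' ω)]
  rw [this]
  ring

/-- sum of a function of the value -/
lemma sum_div_mass_le [DecidableEq β] {w : Ω → ℝ} (hw : ∀ ω, 0 ≤ w ω) (f : Ω → β) (b : β) :
    (∑ ω, if f ω = b then w ω / mass w f b else 0) ≤ 1 := by
  have h0 : mass w f b = ∑ ω, if f ω = b then w ω else 0 := by
    unfold mass
    refine Finset.sum_congr rfl fun ω _ => ?_
    by_cases h : f ω = b
    · simp only [if_pos h]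
    · simp only [if_neg h]
  have h1 : (∑ ω, if f ω = b then w ω / mass w f b else 0) = mass w f b / mass w f b := by
    conv_rhs => rw [h0]
    rw [Finset.sum_div]
    refine Finset.sum_congr rfl fun ω _ => ?_
    by_cases h : f ω = b
    · simp only [if_pos h]
      rw [← h0]
    · simp only [if_neg h, zero_div]
  rw [h1]
  exact div_self_le_one _

/-- conditioning on another variable decreases the entropy -/
lemma sum_ent_rw'_le [Fintype γ] {w : Ω → ℝ} (hw : ∀ ω, 0 ≤ w ω) (f : Ω → β) (g : Ω → γ) :
    ∑ c, ent (rw' w g c) f ≤ ent w f := by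
  classical
  set h : Ω → β × γ := fun ω => (f ω, g ω) with hh
  have h1 : ∀ c, ent (rw' w g c) f =
      ∑ ω, rw' w g c ω * (log (mass w g (g ω)) - log (mass w h (h ω))) := by
    intro c
    unfold ent
    refine Finset.sum_congr rfl fun ω _ => ?_
    by_cases hc : g ω = c
    · congr 1
      rw [sum_rw', hc]
      congr 2
      unfold mass
      refine Finset.sum_congr rfl fun ω' _ => ?_
      by_cases h2 : f ω' = f ω
      · rw [if_pos h2]
        unfold rw'
        by_cases h3 : g ω' = c
        · rw [if_pos h3, if_pos]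
          simp only [hh, Prod.mk.injEq]
          exact ⟨h2, h3.trans hc.symm⟩
        · rw [if_neg h3, if_neg]
          simp only [hh, Prod.mk.injEq, not_and]
          intro _ h4
          exact h3 (h4.trans hc)
      · rw [if_neg h2, if_neg]
        simp only [hh, Prod.mk.injEq, not_and]
        intro h4
        exact absurd h4 h2
    · have : rw' w g c ω = 0 := by
        unfold rw'
        rw [if_neg hc]
      rw [this]
      simp
  simp only [h1]
  rw [sum_sum_rw' w g (fun ω => log (mass w g (g ω)) - log (mass w h (h ω)))]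
  unfold ent
  set W := ∑ ω', w ω' with hW
  rcases (Finset.sum_nonneg fun ω (_ : ω ∈ Finset.univ) => hw ω).lt_or_eq with hWpos | hW0
  swap
  · have h0 : ∀ ω, w ω = 0 := fun ω =>
      (Finset.sum_eq_zero_iff_of_nonneg (fun ω _ => hw ω)).1 hW0.symm ω (Finset.mem_univ ω)
    simp [h0]
  have key : ∀ ω, w ω * (log (mass w g (g ω)) - log (mass w h (h ω))) -
      w ω * (log W - log (mass w f (f ω))) ≤
      w ω * (mass w f (f ω) * mass w g (g ω) / (W * mass w h (h ω))) - w ω := by
    intro ω
    by_cases h0 : w ω = 0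
    · simp [h0]
    · have p1 := mass_pos hw f h0
      have p2 := mass_pos hw g h0
      have p3 := mass_pos hw h h0
      have h2 := Real.log_le_sub_one_of_pos
        (show 0 < mass w f (f ω) * mass w g (g ω) / (W * mass w h (h ω)) by positivity)
      rw [Real.log_div (by positivity) (by positivity), Real.log_mul p1.ne' p2.ne',
        Real.log_mul hWpos.ne' p3.ne'] at h2
      have := mul_le_mul_of_nonneg_left h2 (hw ω)
      nlinarith [this]
  have hsum : ∑ ω, w ω * (mass w f (f ω) * mass w g (g ω) / (W * mass w h (h ω))) ≤ W := by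
    have e1 : ∀ ω, w ω * (mass w f (f ω) * mass w g (g ω) / (W * mass w h (h ω))) =
        W⁻¹ * ∑ ω', ∑ ω'', w ω' * w ω'' *
          (if h ω = (f ω', g ω'') then w ω / mass w h (f ω', g ω'') else 0) := by
      intro ω
      have e2 : ∑ ω', ∑ ω'', w ω' * w ω'' *
          (if h ω = (f ω', g ω'') then w ω / mass w h (f ω', g ω'') else 0) =
          (mass w f (f ω) * mass w g (g ω)) * (w ω / mass w h (h ω)) := by
        unfold mass
        rw [Finset.sum_mul_sum, Finset.sum_mul]
        refine Finset.sum_congr rfl fun ω' _ => ?_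
        rw [Finset.sum_mul]
        refine Finset.sum_congr rfl fun ω'' _ => ?_
        by_cases h1 : f ω' = f ω
        · by_cases h2 : g ω'' = g ω
          · have : h ω = (f ω', g ω'') := by simp only [hh, h1, h2]
            rw [if_pos this, if_pos h1, if_pos h2, this]
          · rw [if_neg, if_neg h2]
            · ring
            · simp only [hh, Prod.mk.injEq, not_and]
              intro _ h4
              exact h2 h4.symm
        · rw [if_neg, if_neg h1]
          · ring
          · simp only [hh, Prod.mk.injEq, not_and]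
            intro h4
            exact absurd h4.symm h1
      rw [e2]
      field_simp
    rw [Finset.sum_congr rfl fun ω _ => e1 ω, ← Finset.mul_sum, Finset.sum_comm]
    have e3 : ∑ ω', ∑ ω, ∑ ω'', w ω' * w ω'' *
          (if h ω = (f ω', g ω'') then w ω / mass w h (f ω', g ω'') else 0) ≤ W * W := by
      rw [hW, Finset.sum_mul_sum]
      refine Finset.sum_le_sum fun ω' _ => ?_
      rw [Finset.sum_comm]
      refine Finset.sum_le_sum fun ω'' _ => ?_
      rw [← Finset.mul_sum]
      exact mul_le_of_le_one_right (mul_nonneg (hw _) (hw _)) (sum_div_mass_le hw h _)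
    calc W⁻¹ * _ ≤ W⁻¹ * (W * W) := mul_le_mul_of_nonneg_left e3 (by positivity)
      _ = W := by field_simp
  have := Finset.sum_le_sum fun ω (_ : ω ∈ Finset.univ) => key ω
  rw [Finset.sum_sub_distrib, Finset.sum_sub_distrib] at this
  linarith

/-- adding a variable with `N` values increases the entropy by at most `log N` -/
lemma ent_pair_le [Fintype δ] {w : Ω → ℝ} (hw : ∀ ω, 0 ≤ w ω) (e : Ω → δ) (g : Ω → γ) :
    ent w (fun ω => (e ω, g ω)) ≤ ent w g + (∑ ω, w ω) * log (Fintype.card δ) := by
  classical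
  set h : Ω → δ × γ := fun ω => (e ω, g ω) with hh
  set W := ∑ ω', w ω' with hW
  rcases (Finset.sum_nonneg fun ω (_ : ω ∈ Finset.univ) => hw ω).lt_or_eq with hWpos | hW0
  swap
  · have h0 : ∀ ω, w ω = 0 := fun ω =>
      (Finset.sum_eq_zero_iff_of_nonneg (fun ω _ => hw ω)).1 hW0.symm ω (Finset.mem_univ ω)
    simp [h0, ent, W]
  have hne : Nonempty Ω := by
    by_contra hcon
    rw [not_nonempty_iff] at hcon
    simp at hWpos
  have hcard : (0 : ℝ) < Fintype.card δ := by
    have : Nonempty δ := ⟨e hne.some⟩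
    exact_mod_cast Fintype.card_pos
  set N : ℝ := (Fintype.card δ : ℝ) with hN
  unfold ent
  have key : ∀ ω, w ω * (log W - log (mass w h (h ω))) - w ω * (log W - log (mass w g (g ω))) -
      w ω * log N ≤ w ω * (mass w g (g ω) / (N * mass w h (h ω))) - w ω := by
    intro ω
    by_cases h0 : w ω = 0
    · simp [h0]
    · have p2 := mass_pos hw g h0
      have p3 := mass_pos hw h h0
      have h2 := Real.log_le_sub_one_of_pos
        (show 0 < mass w g (g ω) / (N * mass w h (h ω)) by positivity)
      rw [Real.log_div (by positivity) (by positivity), Real.log_mul hcard.ne' p3.ne'] at h2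
      have := mul_le_mul_of_nonneg_left h2 (hw ω)
      nlinarith [this]
  have hsum : ∑ ω, w ω * (mass w g (g ω) / (N * mass w h (h ω))) ≤ W := by
    have e1 : ∀ ω, w ω * (mass w g (g ω) / (N * mass w h (h ω))) =
        N⁻¹ * ∑ ω', ∑ d, w ω' * (if h ω = (d, g ω') then w ω / mass w h (d, g ω') else 0) := by
      intro ω
      have e2 : ∑ ω', ∑ d, w ω' *
          (if h ω = (d, g ω') then w ω / mass w h (d, g ω') else 0) =
          mass w g (g ω) * (w ω / mass w h (h ω)) := by
        conv_rhs => rw [mass]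
        rw [Finset.sum_mul]
        refine Finset.sum_congr rfl fun ω' _ => ?_
        by_cases h1 : g ω' = g ω
        · rw [if_pos h1, Finset.sum_eq_single (e ω)]
          · rw [h1, if_pos rfl]
          · intro d _ hd
            rw [if_neg, mul_zero]
            simp only [hh, Prod.mk.injEq, not_and]
            intro h4
            exact absurd h4.symm hd
          · simp
        · rw [if_neg h1, zero_mul]
          refine Finset.sum_eq_zero fun d _ => ?_
          rw [if_neg, mul_zero]
          simp only [hh, Prod.mk.injEq, not_and]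
          intro _ h4
          exact h1 h4.symm
      rw [e2]
      field_simp
    rw [Finset.sum_congr rfl fun ω _ => e1 ω, ← Finset.mul_sum, Finset.sum_comm]
    have e3 : ∑ ω', ∑ ω, ∑ d, w ω' *
          (if h ω = (d, g ω') then w ω / mass w h (d, g ω') else 0) ≤ W * N := by
      rw [hW, Finset.sum_mul]
      refine Finset.sum_le_sum fun ω' _ => ?_
      rw [Finset.sum_comm]
      have : ∀ d ∈ (Finset.univ : Finset δ), ∑ ω, w ω' *
          (if h ω = (d, g ω') then w ω / mass w h (d, g ω') else 0) ≤ w ω' := by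
        intro d _
        rw [← Finset.mul_sum]
        exact mul_le_of_le_one_right (hw _) (sum_div_mass_le hw h _)
      refine (Finset.sum_le_sum this).trans (le_of_eq ?_)
      rw [Finset.sum_const, Finset.card_univ, nsmul_eq_mul, mul_comm]
    calc N⁻¹ * _ ≤ N⁻¹ * (W * N) := mul_le_mul_of_nonneg_left e3 (by positivity)
      _ = W := by field_simp
  have := Finset.sum_le_sum fun ω (_ : ω ∈ Finset.univ) => key ω
  rw [Finset.sum_sub_distrib, Finset.sum_sub_distrib, Finset.sum_sub_distrib, ← Finset.sum_mul]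
    at this
  linarith

/-- functions which differ by at most one have nearly the same entropy -/
lemma ent_near {w : Ω → ℝ} (hw : ∀ ω, 0 ≤ w ω) {z h : Ω → ℤ}
    (hzh : ∀ ω, w ω ≠ 0 → |z ω - h ω| ≤ 1) : ent w z ≤ ent w h + (∑ ω, w ω) * log 3 := by
  classical
  have h1 := ent_pair_le hw (fun ω => (⟨(z ω - h ω + 1).toNat % 3, Nat.mod_lt _ (by norm_num)⟩ : Fin 3)) h
  rw [Fintype.card_fin] at h1
  push_cast at h1
  refine le_trans (ent_mono' hw ?_) h1
  intro ω ω' h0 h0' heq
  have a1 := hzh ω h0
  have a2 := hzh ω' h0'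
  rw [abs_le] at a1 a2
  simp only [Prod.mk.injEq, Fin.mk.injEq] at heq
  omega

/-- log-sum inequality -/
lemma log_sum_ineq [DecidableEq β] {w : Ω → ℝ} (hw : ∀ ω, 0 ≤ w ω) (z : Ω → β) (S : β → ℝ) {T : ℝ}
    (hS : ∀ ω, w ω ≠ 0 → 0 < S (z ω)) (hS0 : ∀ b, 0 ≤ S b)
    (hT : ∑ b ∈ Finset.univ.image z, S b ≤ T) :
    ∑ ω, w ω * log (S (z ω)) + ent w z ≤ (∑ ω, w ω) * log T := by
  classical
  set W := ∑ ω', w ω' with hW
  rcases (Finset.sum_nonneg fun ω (_ : ω ∈ Finset.univ) => hw ω).lt_or_eq with hWpos | hW0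
  swap
  · have h0 : ∀ ω, w ω = 0 := fun ω =>
      (Finset.sum_eq_zero_iff_of_nonneg (fun ω _ => hw ω)).1 hW0.symm ω (Finset.mem_univ ω)
    simp [h0, ent, W]
  have hTpos : 0 < T := by
    obtain ⟨ω, hω⟩ : ∃ ω, w ω ≠ 0 := by
      by_contra hcon
      push Not at hcon
      rw [Finset.sum_eq_zero fun ω _ => hcon ω] at hWpos
      exact lt_irrefl _ hWpos
    refine lt_of_lt_of_le (hS ω hω) (le_trans ?_ hT)
    exact Finset.single_le_sum (fun b _ => hS0 b) (Finset.mem_image_of_mem z (Finset.mem_univ ω))
  unfold ent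
  have key : ∀ ω, w ω * log (S (z ω)) + w ω * (log W - log (mass w z (z ω))) - w ω * log T ≤
      w ω * (S (z ω) * W / (T * mass w z (z ω))) - w ω := by
    intro ω
    by_cases h0 : w ω = 0
    · simp [h0]
    · have p3 := mass_pos hw z h0
      have p1 := hS ω h0
      have h2 := Real.log_le_sub_one_of_pos
        (show 0 < S (z ω) * W / (T * mass w z (z ω)) by positivity)
      rw [Real.log_div (by positivity) (by positivity), Real.log_mul hTpos.ne' p3.ne',
        Real.log_mul p1.ne' hWpos.ne'] at h2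
      have := mul_le_mul_of_nonneg_left h2 (hw ω)
      nlinarith [this]
  have hsum : ∑ ω, w ω * (S (z ω) * W / (T * mass w z (z ω))) ≤ W := by
    have e1 : ∀ ω, w ω * (S (z ω) * W / (T * mass w z (z ω))) =
        (W / T) * ∑ b ∈ Finset.univ.image z, S b * (if z ω = b then w ω / mass w z b else 0) := by
      intro ω
      rw [Finset.sum_eq_single (z ω)]
      · rw [if_pos rfl]
        field_simp
      · intro b _ hb
        rw [if_neg (Ne.symm hb), mul_zero]
      · intro h
        exact absurd (Finset.mem_image_of_mem z (Finset.mem_univ ω)) h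
    rw [Finset.sum_congr rfl fun ω _ => e1 ω, ← Finset.mul_sum, Finset.sum_comm]
    have e3 : ∑ b ∈ Finset.univ.image z, ∑ ω, S b * (if z ω = b then w ω / mass w z b else 0) ≤
        T := by
      refine le_trans (Finset.sum_le_sum fun b _ => ?_) hT
      rw [← Finset.mul_sum]
      exact mul_le_of_le_one_right (hS0 b) (sum_div_mass_le hw z b)
    calc (W / T) * _ ≤ (W / T) * T := mul_le_mul_of_nonneg_left e3 (by positivity)
      _ = W := by field_simp
  have := Finset.sum_le_sum fun ω (_ : ω ∈ Finset.univ) => key ω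
  rw [Finset.sum_sub_distrib, Finset.sum_sub_distrib, Finset.sum_add_distrib, ← Finset.sum_mul]
    at this
  linarith

/-- summation over the values of `z` -/
lemma sum_image_mass [DecidableEq β] (w : Ω → ℝ) (z : Ω → β) (g : β → ℝ) :
    ∑ b ∈ Finset.univ.image z, mass w z b * g b = ∑ ω, w ω * g (z ω) := by
  classical
  unfold mass
  simp only [Finset.sum_mul]
  rw [Finset.sum_comm]
  refine Finset.sum_congr rfl fun ω _ => ?_
  rw [Finset.sum_eq_single (z ω)]
  · rw [if_pos rfl]
  · intro b _ hb
    rw [if_neg (Ne.symm hb), zero_mul]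
  · intro h
    exact absurd (Finset.mem_image_of_mem z (Finset.mem_univ ω)) h

/-- marginals: a weight on a product which does not depend on the second coordinate -/
lemma mass_fst {X Y : Type*} [Fintype X] [Fintype Y] (w : X → ℝ) (f : X → β) (b : β) :
    mass (fun x : X × Y => w x.1) (fun x => f x.1) b = Fintype.card Y * mass w f b := by
  classical
  unfold mass
  rw [Fintype.sum_prod_type]
  simp only [Finset.sum_const, Finset.card_univ, nsmul_eq_mul]
  rw [Finset.mul_sum]

lemma sum_fst {X Y : Type*} [Fintype X] [Fintype Y] (w : X → ℝ) :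
    ∑ x : X × Y, w x.1 = Fintype.card Y * ∑ x, w x := by
  rw [Fintype.sum_prod_type]
  simp only [Finset.sum_const, Finset.card_univ, nsmul_eq_mul]
  rw [Finset.mul_sum]

lemma ent_fst {X Y : Type*} [Fintype X] [Fintype Y] {w : X → ℝ} (hw : ∀ x, 0 ≤ w x)
    (f : X → β) :
    ent (fun x : X × Y => w x.1) (fun x => f x.1) = Fintype.card Y * ent w f := by
  unfold ent
  simp only [mass_fst, sum_fst]
  rw [← sum_fst (Y := Y) (fun x => w x * (log (∑ ω', w ω') - log (mass w f (f x))))]
  refine Finset.sum_congr rfl fun x _ => ?_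
  by_cases h0 : w x.1 = 0
  · simp [h0]
  · have hY : (Fintype.card Y : ℝ) ≠ 0 := by
      have : Nonempty Y := ⟨x.2⟩
      exact_mod_cast Fintype.card_ne_zero
    rw [Real.log_mul hY (total_pos hw h0).ne', Real.log_mul hY (mass_pos hw f h0).ne']
    ring

/-- change of variables along an equivalence -/
lemma ent_equiv {Ω' : Type*} [Fintype Ω'] (e : Ω' ≃ Ω) (w : Ω → ℝ) (f : Ω → β) :
    ent (w ∘ e) (f ∘ e) = ent w f := by
  classical
  unfold ent mass
  simp only [Function.comp]
  rw [← Equiv.sum_comp e (fun ω => w ω * (log (∑ ω', w ω') - log (∑ ω', if f ω' = f ω then w ω' else 0)))]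
  refine Finset.sum_congr rfl fun x _ => ?_
  rw [Equiv.sum_comp e (fun ω => w ω), Equiv.sum_comp e (fun ω => if f ω = f (e x) then w ω else 0)]

end

end Pool.Agent.Lib.CantorC
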